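import Mathlib
import Pool.Agent.R113.M4

set_option autoImplicit false

/-!
# A spectrally arbitrary direct sum of two patterns that are not spectrally arbitrary

Let `Z₆` be the `6 × 6` zero-nonzero pattern with eleven nonzero entries `z6`, and let `J` be the
full `2 × 2` pattern. The patterns `Z₆ ⊕ J ⊕ ⋯ ⊕ J` with at least seven copies of `J` are spectrally
arbitrary, those with at most one copy are not. Take the least number `m` of copies for which the
pattern is spectrally arbitrary. Then `Z₆ ⊕ (m - 1) J` and `M₄` are not spectrally arbitrary, and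
their direct sum is.
-/

namespace Pool.Agent.Results.MP_1020fe_co.TwoNonSAP

open Polynomial Matrix Pool.Agent.H228R3.Sap Pool.Agent.R113

/-- The real matrix `A` is a realization of the zero-nonzero pattern `Z` (`true` stands for `*`). -/
def Realizes {n : ℕ} (A : Matrix (Fin n) (Fin n) ℝ) (Z : Matrix (Fin n) (Fin n) Bool) : Prop :=
  ∀ i j, A i j ≠ 0 ↔ Z i j = true

/-- The pattern `Z` is spectrally arbitrary: every monic real polynomial of degree `n` is the
characteristic polynomial of a realization of `Z`. -/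
def SpectrallyArbitrary {n : ℕ} (Z : Matrix (Fin n) (Fin n) Bool) : Prop :=
  ∀ p : ℝ[X], p.Monic → p.natDegree = n →
    ∃ A : Matrix (Fin n) (Fin n) ℝ, Realizes A Z ∧ A.charpoly = p

/-- The direct sum of two zero-nonzero patterns. -/
def directSum {n₁ n₂ : ℕ} (Z₁ : Matrix (Fin n₁) (Fin n₁) Bool) (Z₂ : Matrix (Fin n₂) (Fin n₂) Bool) :
    Matrix (Fin (n₁ + n₂)) (Fin (n₁ + n₂)) Bool :=
  Matrix.reindex finSumFinEquiv finSumFinEquiv
    (Matrix.fromBlocks Z₁ (fun _ _ => false) (fun _ _ => false) Z₂)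

/-! ### General index types -/

/-- Realizations of patterns over an arbitrary index type. -/
def Rl {ι : Type} (A : Matrix ι ι ℝ) (Z : Matrix ι ι Bool) : Prop :=
  ∀ i j, A i j ≠ 0 ↔ Z i j = true

/-- `p` is realized by `Z`. -/
def At {ι : Type} [Fintype ι] [DecidableEq ι] (Z : Matrix ι ι Bool) (p : ℝ[X]) : Prop :=
  ∃ A : Matrix ι ι ℝ, Rl A Z ∧ A.charpoly = p

theorem at_reindex {ι κ : Type} [Fintype ι] [DecidableEq ι] [Fintype κ] [DecidableEq κ]
    (e : ι ≃ κ) (Z : Matrix ι ι Bool) (p : ℝ[X]) : At (Matrix.reindex e e Z) p ↔ At Z p := by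
  constructor
  · rintro ⟨A, hA, rfl⟩
    refine ⟨Matrix.reindex e.symm e.symm A, fun i j => ?_, ?_⟩
    · have := hA (e i) (e j)
      simpa using this
    · rw [Matrix.charpoly_reindex]
  · rintro ⟨A, hA, rfl⟩
    refine ⟨Matrix.reindex e e A, fun i j => ?_, ?_⟩
    · have := hA (e.symm i) (e.symm j)
      simpa using this
    · rw [Matrix.charpoly_reindex]

/-- The direct sum of two patterns. -/
def ds {ι κ : Type} (Z : Matrix ι ι Bool) (W : Matrix κ κ Bool) : Matrix (ι ⊕ κ) (ι ⊕ κ) Bool :=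
  Matrix.fromBlocks Z (fun _ _ => false) (fun _ _ => false) W

theorem at_ds {ι κ : Type} [Fintype ι] [DecidableEq ι] [Fintype κ] [DecidableEq κ]
    (Z : Matrix ι ι Bool) (W : Matrix κ κ Bool) (p : ℝ[X]) :
    At (ds Z W) p ↔ ∃ g h : ℝ[X], At Z g ∧ At W h ∧ p = g * h := by
  constructor
  · rintro ⟨A, hA, rfl⟩
    refine ⟨_, _, ⟨A.toBlocks₁₁, fun i j => hA (Sum.inl i) (Sum.inl j), rfl⟩,
      ⟨A.toBlocks₂₂, fun i j => hA (Sum.inr i) (Sum.inr j), rfl⟩, ?_⟩
    have h12 : A.toBlocks₁₂ = 0 := by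
      ext i j
      by_contra h
      exact Bool.false_ne_true ((hA (Sum.inl i) (Sum.inr j)).1 h)
    have h21 : A.toBlocks₂₁ = 0 := by
      ext i j
      by_contra h
      exact Bool.false_ne_true ((hA (Sum.inr i) (Sum.inl j)).1 h)
    conv_lhs => rw [← Matrix.fromBlocks_toBlocks A, h12, h21]
    rw [Matrix.charpoly_fromBlocks_zero₁₂]
  · rintro ⟨g, h, ⟨A, hA, rfl⟩, ⟨B, hB, rfl⟩, rfl⟩
    refine ⟨Matrix.fromBlocks A 0 0 B, ?_, Matrix.charpoly_fromBlocks_zero₁₂ _ _ _⟩
    rintro (i | i) (j | j)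
    · exact hA i j
    · exact ⟨fun h => (h rfl).elim, fun h => (Bool.false_ne_true h).elim⟩
    · exact ⟨fun h => (h rfl).elim, fun h => (Bool.false_ne_true h).elim⟩
    · exact hB i j

/-- The direct sum of `m` full patterns of order two. -/
def full (m : ℕ) : Matrix (Fin 2 × Fin m) (Fin 2 × Fin m) Bool := fun x y => decide (x.2 = y.2)

theorem at_full (m : ℕ) (h : ℝ[X]) (hh : IsMonicOfDegree h (2 * m)) : At (full m) h := by
  obtain ⟨u, v, rfl⟩ := exists_quads m h hh
  choose B hB hBc using fun k : Fin m => exists_two (u k) (v k)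
  refine ⟨Matrix.blockDiagonal B, ?_, ?_⟩
  · intro x y
    simp only [Matrix.blockDiagonal_apply, full, decide_eq_true_eq]
    by_cases hxy : x.2 = y.2
    · rw [if_pos hxy]
      exact ⟨fun _ => hxy, fun _ => hB _ _ _⟩
    · rw [if_neg hxy]
      exact ⟨fun h => absurd rfl h, fun h => absurd h hxy⟩
  · rw [charpoly_blockDiagonal, Finset.prod_congr rfl fun k _ => hBc k]

/-- Every monic polynomial of degree `6 + 2m` has a factor of degree six realized by `z6`. -/
def Fact (m : ℕ) : Prop := ∀ f : ℝ[X], IsMonicOfDegree f (6 + 2 * m) →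
  ∃ g h : ℝ[X], Real6 g ∧ IsMonicOfDegree h (2 * m) ∧ f = g * h

theorem fact_seven : Fact 7 := fun _ hf => exists_factor hf

theorem fact_succ {m : ℕ} (h : Fact m) : Fact (m + 1) := by
  intro f hf
  have e : 6 + 2 * (m + 1) = (6 + 2 * m) + 2 := by ring
  rw [e] at hf
  obtain ⟨f₁, f₂, h1, h2, rfl⟩ := hf.eq_isMonicOfDegree_two_mul_isMonicOfDegree
  obtain ⟨g, k, hg, hk, rfl⟩ := h f₂ h2
  refine ⟨g, f₁ * k, hg, ?_, by ring⟩
  have e2 : 2 * (m + 1) = 2 + 2 * m := by ring
  rw [e2]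
  exact h1.mul hk

/-! ### The pattern `z6` -/

theorem charpoly6 (a b p q r s x y z w t : ℝ) :
    (!![0, 0, 0, s, q, p;
        x, a, 0, r, 0, 0;
        0, 0, 0, 0, y, 0;
        0, 0, z, 0, 0, 0;
        0, w, 0, 0, 0, 0;
        t, 0, 0, 0, 0, b] : Matrix (Fin 6) (Fin 6) ℝ).charpoly =
    X ^ 6 - C (a + b) * X ^ 5 + C (a * b - p * t) * X ^ 4 - C (q * w * x - p * t * a) * X ^ 3 +
      C (q * w * x * b - r * z * y * w) * X ^ 2 - C (s * z * y * w * x - r * z * y * w * b) * X +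
      C (s * z * y * w * x * b + r * z * y * w * (p * t)) := by
  have h1 : charmatrix (!![0, 0, 0, s, q, p;
        x, a, 0, r, 0, 0;
        0, 0, 0, 0, y, 0;
        0, 0, z, 0, 0, 0;
        0, w, 0, 0, 0, 0;
        t, 0, 0, 0, 0, b] : Matrix (Fin 6) (Fin 6) ℝ) =
      !![X, 0, 0, -C s, -C q, -C p;
         -C x, X - C a, 0, -C r, 0, 0;
         0, 0, X, 0, -C y, 0;
         0, 0, -C z, X, 0, 0;
         0, -C w, 0, 0, X, 0;
         -C t, 0, 0, 0, 0, X - C b] := by
    ext i j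
    fin_cases i <;> fin_cases j <;> simp [charmatrix]
  rw [Matrix.charpoly, h1]
  simp [Matrix.det_succ_row_zero, Fin.sum_univ_succ, Fin.succAbove]
  ring

/-- The polynomials realized by `z6` have parameters as in `C6`. -/
theorem real6_solv {g : ℝ[X]} (h : Real6 g) : ∃ E₁ E₂ E₃ E₄ E₅ E₆ : ℝ, Solv E₁ E₂ E₃ E₄ E₅ E₆ ∧
    g = X ^ 6 - C E₁ * X ^ 5 + C E₂ * X ^ 4 - C E₃ * X ^ 3 + C E₄ * X ^ 2 - C E₅ * X + C E₆ := by
  obtain ⟨A, hA, rfl⟩ := h
  have zer : ∀ i j, z6 i j = false → A i j = 0 := fun i j h => by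
    by_contra h0
    rw [(hA i j).1 h0] at h
    exact Bool.false_ne_true h.symm
  have nz : ∀ i j, z6 i j = true → A i j ≠ 0 := fun i j h => (hA i j).2 h
  have hform : A = !![0, 0, 0, A 0 3, A 0 4, A 0 5;
        A 1 0, A 1 1, 0, A 1 3, 0, 0;
        0, 0, 0, 0, A 2 4, 0;
        0, 0, A 3 2, 0, 0, 0;
        0, A 4 1, 0, 0, 0, 0;
        A 5 0, 0, 0, 0, 0, A 5 5] := by
    ext i j
    fin_cases i <;> fin_cases j <;> simp <;> apply zer <;> decide
  have h03 := nz 0 3 (by decide)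
  have h04 := nz 0 4 (by decide)
  have h05 := nz 0 5 (by decide)
  have h10 := nz 1 0 (by decide)
  have h11 := nz 1 1 (by decide)
  have h13 := nz 1 3 (by decide)
  have h24 := nz 2 4 (by decide)
  have h32 := nz 3 2 (by decide)
  have h41 := nz 4 1 (by decide)
  have h50 := nz 5 0 (by decide)
  have h55 := nz 5 5 (by decide)
  rw [hform, charpoly6]
  refine ⟨_, _, _, _, _, _, ⟨A 1 1, A 5 5, A 0 5 * A 5 0, A 0 4 * A 4 1 * A 1 0,
    A 1 3 * A 3 2 * A 2 4 * A 4 1, A 0 3 * A 3 2 * A 2 4 * A 4 1 * A 1 0, h11, h55,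
    mul_ne_zero h05 h50, mul_ne_zero (mul_ne_zero h04 h41) h10,
    mul_ne_zero (mul_ne_zero (mul_ne_zero h13 h32) h24) h41,
    mul_ne_zero (mul_ne_zero (mul_ne_zero (mul_ne_zero h03 h32) h24) h41) h10, rfl, rfl, rfl,
    rfl, rfl, rfl⟩, rfl⟩

/-- `E₁ = E₃ = E₅ = E₆ = 0` forces `E₂ = 0`. -/
theorem solv_even {E₂ E₄ : ℝ} (h : Solv 0 E₂ 0 E₄ 0 0) : E₂ = 0 := by
  obtain ⟨a, b, p, q, r, s, ha, hb, hp, hq, hr, hs, e1, e2, e3, e4, e5, e6⟩ := h
  have h1 : a = -b := by linarith
  have h2 : s = r * b := by linarith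
  have h3 : r * (b * b + p) = 0 := by
    rw [h2] at e6
    linear_combination e6
  have h4 : b * b + p = 0 := by
    rcases mul_eq_zero.1 h3 with h | h
    · exact absurd h hr
    · exact h
  rw [h1] at e2
  linarith

/-- `X⁴ (X² + 1)²` has no factor of degree six realized by `z6`. -/
theorem not_fact_one : ¬ Fact 1 := by
  intro H
  have hm : IsMonicOfDegree ((X ^ 4 * (X ^ 2 + C 1) ^ 2 : ℝ[X])) (6 + 2 * 1) := by
    constructor
    · compute_degree!
    · monicity!
  obtain ⟨g, h, hg, hh, e⟩ := H _ hm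
  obtain ⟨u, v, rfl⟩ := exists_quad (by simpa using hh)
  obtain ⟨E₁, E₂, E₃, E₄, E₅, E₆, hS, rfl⟩ := real6_solv hg
  have e' : (X ^ 8 + C 2 * X ^ 6 + C 1 * X ^ 4 : ℝ[X]) =
      X ^ 8 + C (-E₁ - u) * X ^ 7 + C (E₂ + E₁ * u + v) * X ^ 6 + C (-E₃ - E₂ * u - E₁ * v) * X ^ 5 +
        C (E₄ + E₃ * u + E₂ * v) * X ^ 4 + C (-E₅ - E₄ * u - E₃ * v) * X ^ 3 +
        C (E₆ + E₅ * u + E₄ * v) * X ^ 2 + C (-E₆ * u - E₅ * v) * X + C (E₆ * v) := by
    have e1 : (X ^ 4 * (X ^ 2 + C 1) ^ 2 : ℝ[X]) = X ^ 8 + C 2 * X ^ 6 + C 1 * X ^ 4 := by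
      have : (C 2 : ℝ[X]) = 2 := rfl
      rw [this, map_one]
      ring
    rw [← e1, e]
    simp only [quad, map_add, map_sub, map_mul, map_neg]
    ring
  have coef : ∀ k, (X ^ 8 + C 2 * X ^ 6 + C 1 * X ^ 4 : ℝ[X]).coeff k = _ := fun k =>
    congrArg (fun t => t.coeff k) e'
  have c7 := coef 7
  have c6 := coef 6
  have c5 := coef 5
  have c4 := coef 4
  have c3 := coef 3
  have c2 := coef 2
  have c1 := coef 1
  have c0 := coef 0
  simp only [coeff_add, coeff_C_mul, coeff_X_pow, coeff_C, coeff_X] at c7 c6 c5 c4 c3 c2 c1 c0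
  norm_num at c7 c6 c5 c4 c3 c2 c1 c0
  have h1 : E₁ = -u := by linarith
  subst h1
  by_cases hv : v = 0
  · subst hv
    by_cases hu : u = 0
    · subst hu
      have h3 : E₃ = 0 := by linarith
      have h5 : E₅ = 0 := by linarith
      have h6 : E₆ = 0 := by linarith
      subst h3 h5 h6
      have h2 := solv_even (by simpa using hS)
      rw [h2] at c6
      norm_num at c6
    · have h6 : E₆ = 0 := by
        have : E₆ * u = 0 := by linarith
        exact (mul_eq_zero.1 this).resolve_right hu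
      have h5 : E₅ = 0 := by
        have : E₅ * u = 0 := by rw [h6] at c2; linarith
        exact (mul_eq_zero.1 this).resolve_right hu
      have h4 : E₄ = 0 := by
        have : E₄ * u = 0 := by rw [h5] at c3; linarith
        exact (mul_eq_zero.1 this).resolve_right hu
      have h2 : E₂ = 2 + u ^ 2 := by nlinarith
      have h3 : E₃ = -(2 + u ^ 2) * u := by rw [h2] at c5; nlinarith
      rw [h4, h3] at c4
      nlinarith [sq_nonneg u, sq_nonneg (u ^ 2)]
  · have h6 : E₆ = 0 := by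
      rcases c0 with h | h
      · exact h
      · exact absurd h hv
    have h5 : E₅ = 0 := by
      have : E₅ * v = 0 := by rw [h6] at c1; linarith
      exact (mul_eq_zero.1 this).resolve_right hv
    have h4 : E₄ = 0 := by
      have : E₄ * v = 0 := by rw [h6, h5] at c2; linarith
      exact (mul_eq_zero.1 this).resolve_right hv
    have h3 : E₃ = 0 := by
      have : E₃ * v = 0 := by rw [h5, h4] at c3; linarith
      exact (mul_eq_zero.1 this).resolve_right hv
    subst h3 h4 h5 h6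
    have h2v : E₂ * v = 1 := by linarith
    have h2u : u * (v - E₂) = 0 := by linarith
    rcases mul_eq_zero.1 h2u with hu | hu
    · subst hu
      have h7 : (E₂ - v) ^ 2 = 0 := by nlinarith
      have h8 : E₂ = v := by
        have := pow_eq_zero_iff (two_ne_zero) |>.1 h7
        linarith
      have h9 : E₂ = 1 := by nlinarith
      have h2 := solv_even (by simpa using hS)
      linarith
    · have h8 : E₂ = v := by linarith
      subst h8
      have h9 : E₂ = 1 := by nlinarith [sq_nonneg u, sq_nonneg (E₂ - 1)]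
      have h10 : u ^ 2 = 0 := by nlinarith
      have h11 : u = 0 := pow_eq_zero_iff (two_ne_zero) |>.1 h10
      subst h11
      have h2 := solv_even (by simpa using hS)
      linarith

theorem not_fact_zero : ¬ Fact 0 := fun h => not_fact_one (fact_succ h)

/-! ### The pattern `M₄` -/

/-- The zero-nonzero pattern `M₄`. -/
def M4 : Matrix (Fin 4) (Fin 4) Bool :=
  !![true, true, true, false;
     true, true, true, false;
     false, false, false, true;
     true, true, false, false]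

theorem charpoly4 (a b c d e f h i j : ℝ) :
    (!![a, b, c, 0; d, e, f, 0; 0, 0, 0, h; i, j, 0, 0] : Matrix (Fin 4) (Fin 4) ℝ).charpoly =
      X ^ 4 - C (a + e) * X ^ 3 + C (a * e - b * d) * X ^ 2 -
        C (h * (i * c + j * f)) * X +
        C (h * (c * (e * i - d * j) + f * (a * j - b * i))) := by
  have h1 : charmatrix (!![a, b, c, 0; d, e, f, 0; 0, 0, 0, h; i, j, 0, 0] :
      Matrix (Fin 4) (Fin 4) ℝ) =
      !![X - C a, -C b, -C c, 0;
         -C d, X - C e, -C f, 0;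
         0, 0, X, -C h;
         -C i, -C j, 0, X] := by
    ext i j
    fin_cases i <;> fin_cases j <;> simp [charmatrix]
  rw [Matrix.charpoly, h1]
  simp [Matrix.det_succ_row_zero, Fin.sum_univ_succ, Fin.succAbove]
  ring

/-- `X² (X² + 1)` is not realized by `M₄`. -/
theorem M4_miss : ¬ At M4 (X ^ 4 + X ^ 2) := by
  rintro ⟨A, hA, hc⟩
  have zer : ∀ i j, M4 i j = false → A i j = 0 := fun i j h => by
    by_contra h0
    rw [(hA i j).1 h0] at h
    exact Bool.false_ne_true h.symm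
  have nz : ∀ i j, M4 i j = true → A i j ≠ 0 := fun i j h => (hA i j).2 h
  have hform : A = !![A 0 0, A 0 1, A 0 2, 0; A 1 0, A 1 1, A 1 2, 0; 0, 0, 0, A 2 3;
      A 3 0, A 3 1, 0, 0] := by
    ext i j
    fin_cases i <;> fin_cases j <;> simp <;> apply zer <;> decide
  have hcc := nz 0 2 (by decide)
  have hh := nz 2 3 (by decide)
  have hj := nz 3 1 (by decide)
  rw [hform, charpoly4] at hc
  generalize A 0 0 = a at *
  generalize A 0 1 = b at *
  generalize A 0 2 = c at *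
  generalize A 1 0 = d at *
  generalize A 1 1 = e at *
  generalize A 1 2 = f at *
  generalize A 2 3 = h at *
  generalize A 3 0 = i at *
  generalize A 3 1 = j at *
  generalize hp : a + e = p at *
  generalize hq : a * e - b * d = q at *
  generalize hr : h * (i * c + j * f) = r at *
  generalize hs : h * (c * (e * i - d * j) + f * (a * j - b * i)) = s at *
  have h3 := congrArg (fun t => t.coeff 3) hc
  have h2 := congrArg (fun t => t.coeff 2) hc
  have h1 := congrArg (fun t => t.coeff 1) hc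
  have h0 := congrArg (fun t => t.coeff 0) hc
  simp [coeff_X, coeff_C, coeff_X_pow] at h3 h2 h1 h0
  subst h3 h2 h1 h0
  have e3 : i * c + j * f = 0 := (mul_eq_zero.1 hr).resolve_left hh
  have e4 : c * (e * i - d * j) + f * (a * j - b * i) = 0 := (mul_eq_zero.1 hs).resolve_left hh
  have key : j * ((b * f + a * c) ^ 2 + c ^ 2) = 0 := by
    have he : e = -a := by linarith
    subst he
    linear_combination b * c * e4 + b * (a * c + b * f) * e3 - j * c ^ 2 * hq
  rcases mul_eq_zero.1 key with h | h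
  · exact hj h
  · have : 0 < c ^ 2 := by positivity
    nlinarith [sq_nonneg (b * f + a * c)]

/-! ### The example -/

/-- `Z₆ ⊕ m J`. -/
def P (m : ℕ) : Matrix (Fin 6 ⊕ (Fin 2 × Fin m)) (Fin 6 ⊕ (Fin 2 × Fin m)) Bool := ds z6 (full m)

theorem P_fact (m : ℕ) (h : ∀ f : ℝ[X], IsMonicOfDegree f (6 + 2 * m) → At (P m) f) : Fact m := by
  intro f hf
  obtain ⟨g, k, hg, hk, rfl⟩ := (at_ds _ _ _).1 (h f hf)
  refine ⟨g, k, hg, ?_, rfl⟩
  obtain ⟨B, -, rfl⟩ := hk
  refine ⟨?_, Matrix.charpoly_monic B⟩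
  rw [Matrix.charpoly_natDegree_eq_dim]
  simp

theorem real4_at {f : ℝ[X]} (h : M4.Real4 f) : At TwoNonSAP.M4 f := by
  obtain ⟨A, hA, hc⟩ := h
  refine ⟨A, fun i j => ?_, hc⟩
  have h1 := hA i j
  have h2 : A i j ≠ 0 ↔ M4.pat i j ≠ 0 := by
    rw [← h1, ne_eq, ne_eq, sign_eq_zero_iff]
  rw [h2]
  fin_cases i <;> fin_cases j <;> decide

/-- If `Z₆ ⊕ (m + 1) J` is spectrally arbitrary, then so is `Z₆ ⊕ m J ⊕ M₄`, provided `m ≥ 1`. -/
theorem sum_arbitrary (m : ℕ) (hm : 1 ≤ m) (hF : Fact (m + 1)) (f : ℝ[X])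
    (hf : IsMonicOfDegree f (6 + 2 * m + 4)) : At (ds (P m) TwoNonSAP.M4) f := by
  obtain ⟨k, rfl⟩ : ∃ k, m = k + 1 := ⟨m - 1, by omega⟩
  have e : 6 + 2 * (k + 1) + 4 = 6 + 2 * (k + 1 + 1 + 1) := by ring
  rw [e] at hf
  obtain ⟨g, h, hg, hh, rfl⟩ := fact_succ hF f hf
  have e2 : 2 * (k + 1 + 1 + 1) = (2 * k + 4) + 2 := by ring
  rw [e2] at hh
  obtain ⟨f₁, h₁, hf1, hh1, rfl⟩ := hh.eq_isMonicOfDegree_two_mul_isMonicOfDegree
  have e3 : 2 * k + 4 = (2 * k + 2) + 2 := by ring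
  rw [e3] at hh1
  obtain ⟨f₂, h₂, hf2, hh2, rfl⟩ := hh1.eq_isMonicOfDegree_two_mul_isMonicOfDegree
  obtain ⟨f₃, h₃, hf3, hh3, rfl⟩ := hh2.eq_isMonicOfDegree_two_mul_isMonicOfDegree
  obtain ⟨a, b, ha, hb, hab⟩ := M4.factor6 (f := f₁ * f₂ * f₃) ((hf1.mul hf2).mul hf3)
  refine (at_ds _ _ _).2 ⟨g * (b * h₃), a, (at_ds _ _ _).2 ⟨g, b * h₃, hg, ?_, rfl⟩, real4_at ha, ?_⟩
  · apply at_full
    have := hb.mul hh3
    have e4 : 2 * (k + 1) = 2 + 2 * k := by ring
    rw [e4]
    exact this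
  · linear_combination g * h₃ * hab

/-- Transfer to an index type `Fin n`. -/
theorem sap_iff {ι : Type} [Fintype ι] [DecidableEq ι] {n : ℕ} (e : ι ≃ Fin n) (Z : Matrix ι ι Bool) :
    SpectrallyArbitrary (Matrix.reindex e e Z) ↔ ∀ f : ℝ[X], IsMonicOfDegree f n → At Z f := by
  constructor
  · intro h f hf
    exact (at_reindex e Z f).1 (h f hf.monic hf.natDegree_eq)
  · intro h p hp hd
    exact (at_reindex e Z p).2 (h p ⟨hd, hp⟩)

/-- **Full answer to Q1: yes.** There are two zero-nonzero patterns `Z₁`, `Z₂`, neither of which is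
spectrally arbitrary, whose direct sum is spectrally arbitrary. One can take for `Z₂` the pattern
`M₄` of order four. -/
theorem result :
    ∃ (n : ℕ) (Z₁ : Matrix (Fin n) (Fin n) Bool),
      ¬ SpectrallyArbitrary Z₁ ∧ ¬ SpectrallyArbitrary TwoNonSAP.M4 ∧
        SpectrallyArbitrary (directSum Z₁ TwoNonSAP.M4) := by
  classical
  obtain ⟨m, hm, hmin⟩ : ∃ m, Fact m ∧ ∀ k < m, ¬ Fact k :=
    ⟨Nat.find ⟨7, fact_seven⟩, Nat.find_spec ⟨7, fact_seven⟩, fun k hk => Nat.find_min _ hk⟩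
  have h2 : 2 ≤ m := by
    by_contra h
    have : m = 0 ∨ m = 1 := by omega
    rcases this with rfl | rfl
    · exact not_fact_zero hm
    · exact not_fact_one hm
  obtain ⟨k, rfl⟩ : ∃ k, m = k + 1 := ⟨m - 1, by omega⟩
  have hcard : Fintype.card (Fin 6 ⊕ (Fin 2 × Fin k)) = 6 + 2 * k := by simp
  set e : Fin 6 ⊕ (Fin 2 × Fin k) ≃ Fin (6 + 2 * k) := Fintype.equivFinOfCardEq hcard with he
  refine ⟨6 + 2 * k, Matrix.reindex e e (P k), ?_, ?_, ?_⟩
  · rw [sap_iff]
    intro h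
    exact hmin k (by omega) (P_fact k h)
  · intro h
    have h1 : (X ^ 4 + X ^ 2 : ℝ[X]).Monic := by monicity!
    have h3 : (X ^ 4 + X ^ 2 : ℝ[X]).natDegree = 4 := by compute_degree!
    exact M4_miss (h _ h1 h3)
  · have hds : directSum (Matrix.reindex e e (P k)) TwoNonSAP.M4 =
        Matrix.reindex ((Equiv.sumCongr e (Equiv.refl _)).trans finSumFinEquiv)
          ((Equiv.sumCongr e (Equiv.refl _)).trans finSumFinEquiv) (ds (P k) TwoNonSAP.M4) := by
      ext i j
      simp only [directSum, Matrix.reindex_apply, Matrix.submatrix_apply, Equiv.symm_trans_apply]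
      rcases finSumFinEquiv.symm i with i | i <;> rcases finSumFinEquiv.symm j with j | j <;> rfl
    rw [hds, sap_iff]
    exact sum_arbitrary k (by omega) hm

end Pool.Agent.Results.MP_1020fe_co.TwoNonSAP
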